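import Pool.Agent.FS.HalfPrimes.Sign
import Pool.Agent.Lib.MP_0d244d_nt.Main

/-! Blocks of prime indices and the distribution of the chosen half. -/

open Finset Real Filter
open Pool.Agent.Lib.MP_0d244d_nt

namespace Pool.Agent.FS.HalfPrimes

/-- the label of the block of `m` -/
def blk (m : ℕ) : ℕ := Nat.pair (Nat.log 2 m) (m / (Nat.log 2 m + 1))

lemma blk_card {X j : ℕ} {S : Finset ℕ} (h : ∀ n ∈ S, n ≤ X ∧ blk (n / 2) = j) :
    S.card ≤ 2 * (Nat.log 2 X + 1) := by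
  rcases S.eq_empty_or_nonempty with rfl | ⟨n0, h0⟩
  · simp
  set k := Nat.log 2 (n0 / 2) with hk
  set d := n0 / 2 / (k + 1) with hd
  have h1 : S ⊆ Ico (d * (2 * (k + 1))) (d * (2 * (k + 1)) + 2 * (k + 1)) := fun n hn => by
    obtain ⟨e1, e2⟩ := Nat.pair_eq_pair.1 ((h n hn).2.trans (h n0 h0).2.symm)
    rw [e1, ← hk, ← hd, Nat.div_div_eq_div_mul] at e2
    rw [mem_Ico, ← e2]
    exact ⟨Nat.div_mul_le_self _ _, Nat.lt_div_mul_add (by omega)⟩
  have h2 := card_le_card h1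
  rw [Nat.card_Ico, Nat.add_sub_cancel_left] at h2
  have h3 : k ≤ Nat.log 2 X := Nat.log_mono_right ((Nat.div_le_self _ _).trans (h n0 h0).1)
  omega

theorem signs_blk : ∃ K : ℝ, 0 ≤ K ∧ ∀ (G : ℕ → ℕ → ℝ) (X : ℕ → ℕ) (S : ℕ → Finset ℕ),
    (∀ i, ∀ n ∈ S i, n ≤ X i) → ∃ s : ℕ → ℝ, (∀ j, s j = 1 ∨ s j = -1) ∧
      ∀ i, |∑ n ∈ S i, s (blk (n / 2)) * G i n| ≤ (K + 2 * log ((i : ℝ) + 1)) *
        √(2 * (Nat.log 2 (X i) + 1) * ∑ n ∈ S i, G i n ^ 2) := by
  obtain ⟨K, hK, h⟩ := signs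
  refine ⟨K, hK, fun G X S hS => ?_⟩
  let D : ℕ → ℝ := fun i => 2 * (Nat.log 2 (X i) + 1) * ∑ n ∈ S i, G i n ^ 2
  obtain ⟨s, hs, hb⟩ := h fun i j => (∑ n ∈ (S i).filter (fun n => blk (n / 2) = j), G i n) / √(D i)
  refine ⟨s, hs, fun i => ?_⟩
  have hsq : 0 ≤ ∑ n ∈ S i, G i n ^ 2 := sum_nonneg fun _ _ => sq_nonneg _
  have hlog : 0 ≤ log ((i : ℝ) + 1) := log_nonneg (by linarith [Nat.cast_nonneg (α := ℝ) i])
  rcases hsq.eq_or_lt with h0 | h0
  · have hz := (sum_eq_zero_iff_of_nonneg fun _ _ => sq_nonneg _).1 h0.symm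
    rw [sum_eq_zero fun n hn => by rw [pow_eq_zero_iff two_ne_zero |>.1 (hz n hn), mul_zero], abs_zero]
    positivity
  have hD : 0 < D i := by positivity
  have hr := sqrt_pos.2 hD
  set J := (S i).sup (fun n => blk (n / 2)) + 1 with hJ
  have hm : ∀ n ∈ S i, blk (n / 2) ∈ range J := fun n hn =>
    mem_range.2 (Nat.lt_succ_of_le (le_sup (f := fun n => blk (n / 2)) hn))
  have h1 := hb i J (by
    simp only [div_pow, sq_sqrt hD.le]
    rw [← sum_div, div_le_one hD]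
    simp only [D]
    rw [← sum_fiberwise_of_maps_to hm (fun n => G i n ^ 2), mul_sum]
    refine sum_le_sum fun j _ => sq_sum_le_card_mul_sum_sq.trans (mul_le_mul_of_nonneg_right ?_
      (sum_nonneg fun _ _ => sq_nonneg _))
    exact_mod_cast blk_card (X := X i) (j := j) fun n hn =>
      ⟨hS i n (mem_filter.1 hn).1, (mem_filter.1 hn).2⟩)
  simp only [← mul_div_assoc] at h1
  rw [← sum_div, abs_div, abs_of_pos hr, div_le_iff₀ hr] at h1
  refine le_trans (le_of_eq ?_) h1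
  rw [← sum_fiberwise_of_maps_to hm (fun n => s (blk (n / 2)) * G i n)]
  congr 1
  refine sum_congr rfl fun j _ => ?_
  rw [mul_sum]
  exact sum_congr rfl fun n hn => by rw [(mem_filter.1 hn).2]

lemma sum_primes (X : ℕ) (F : ℕ → ℝ) : ∑ p ∈ (range (X + 1)).filter Nat.Prime, F p =
    ∑ n ∈ (range (X + 1)).filter (fun n => pr n ≤ X), F (pr n) := by
  symm
  refine sum_bij (fun n _ => pr n) (fun n hn => mem_filter.2 ⟨mem_range.2
    (Nat.lt_succ_of_le (mem_filter.1 hn).2), pr_prime n⟩) (fun a _ b _ h => pr_mono.injective h)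
    (fun p hp => ?_) fun _ _ => rfl
  obtain ⟨h1, h2⟩ := mem_filter.1 hp
  have e : pr (Nat.count Nat.Prime p) = p := Nat.nth_count h2
  have h3 := pr_mono.le_apply (x := Nat.count Nat.Prime p)
  have h4 := mem_range.1 h1
  exact ⟨Nat.count Nat.Prime p, mem_filter.2 ⟨mem_range.2 (by omega), by omega⟩, e⟩

lemma sum_sel (X : ℕ) (F : ℕ → ℝ) {e : ℕ → ℕ} (he : ∀ m, e m ≤ 1) :
    ∑ m ∈ (range (X + 1)).filter (fun m => pr (2 * m + e m) ≤ X), F (pr (2 * m + e m)) =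
    ∑ n ∈ ((range (X + 1)).filter (fun n => pr n ≤ X)).filter (fun n => n % 2 = e (n / 2)),
      F (pr n) := by
  refine sum_bij (fun m _ => 2 * m + e m) (fun m hm => ?_) (fun a _ b _ h => ?_)
    (fun n hn => ?_) fun _ _ => rfl
  · have h1 := (mem_filter.1 hm).2
    have h2 := pr_mono.le_apply (x := 2 * m + e m)
    have h3 := he m
    refine mem_filter.2 ⟨mem_filter.2 ⟨mem_range.2 (by omega), h1⟩, ?_⟩
    rw [show (2 * m + e m) / 2 = m by omega]; omega
  · have h1 := he a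
    have h2 := he b
    omega
  · obtain ⟨h1, h2⟩ := mem_filter.1 hn
    obtain ⟨h3, h4⟩ := mem_filter.1 h1
    have h5 : 2 * (n / 2) + e (n / 2) = n := by omega
    have h6 := mem_range.1 h3
    exact ⟨n / 2, mem_filter.2 ⟨mem_range.2 (by omega), by rwa [h5]⟩, h5⟩

theorem dist : ∃ C : ℝ, ∀ (F : ℕ → ℕ → ℝ) (X : ℕ → ℕ), (∀ i, 2 ≤ X i) →
    ∃ ε : ℕ → ℕ, (∀ j, ε j ≤ 1) ∧ ∀ i,
      |2 * ∑ m ∈ (range (X i + 1)).filter (fun m => pr (2 * m + ε (blk m)) ≤ X i),
          F i (pr (2 * m + ε (blk m))) - ∑ p ∈ (range (X i + 1)).filter Nat.Prime, F i p| ≤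
        C * log ((i : ℝ) + 2) *
          √(log (X i) * ∑ p ∈ (range (X i + 1)).filter Nat.Prime, F i p ^ 2) := by
  classical
  obtain ⟨K, hK, h⟩ := signs_blk
  refine ⟨(2 * K + 2) * 3, fun F X hX => ?_⟩
  obtain ⟨s, hs, hb⟩ := h (fun i n => (-1) ^ n * F i (pr n)) X
    (fun i => (range (X i + 1)).filter fun n => pr n ≤ X i)
    fun i n hn => Nat.lt_succ_iff.1 (mem_range.1 (mem_filter.1 hn).1)
  have he : ∀ j, (if s j = 1 then 0 else 1) ≤ 1 := fun j => by split_ifs <;> omega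
  refine ⟨fun j => if s j = 1 then 0 else 1, he, fun i => ?_⟩
  rw [sum_sel (X i) (F i) (e := fun m => if s (blk m) = 1 then 0 else 1) fun m => he _,
    sum_primes, sum_primes, sum_filter (s := (range (X i + 1)).filter fun n => pr n ≤ X i),
    mul_sum, ← sum_sub_distrib]
  have h1 := hb i
  have hs2 : ∀ n : ℕ, ((-1 : ℝ) ^ n) ^ 2 = 1 := fun n => by
    rw [← pow_mul, mul_comm, pow_mul, neg_one_sq, one_pow]
  simp only [mul_pow, hs2, one_mul] at h1
  refine le_trans (le_of_eq ?_) (h1.trans ?_)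
  · congr 1
    refine sum_congr rfl fun n _ => ?_
    rcases Nat.even_or_odd n with hn | hn
    · rw [hn.neg_one_pow, Nat.even_iff.1 hn]
      rcases hs (blk (n / 2)) with e | e <;> rw [e] <;> norm_num <;> ring
    · rw [hn.neg_one_pow, Nat.odd_iff.1 hn]
      rcases hs (blk (n / 2)) with e | e <;> rw [e] <;> norm_num <;> ring
  · have hsq : 0 ≤ ∑ n ∈ (range (X i + 1)).filter (fun n => pr n ≤ X i), F i (pr n) ^ 2 :=
      sum_nonneg fun _ _ => sq_nonneg _
    generalize ∑ n ∈ (range (X i + 1)).filter (fun n => pr n ≤ X i), F i (pr n) ^ 2 = Q at *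
    have l2 := log_two_gt_d9
    have hi : (0 : ℝ) ≤ i := Nat.cast_nonneg i
    have a1 : log 2 ≤ log ((i : ℝ) + 2) := log_le_log two_pos (by linarith)
    have a2 : log ((i : ℝ) + 1) ≤ log ((i : ℝ) + 2) := log_le_log (by linarith) (by linarith)
    have a3 : log 2 ≤ log (X i : ℝ) := log_le_log two_pos (by exact_mod_cast hX i)
    have a4 : (Nat.log 2 (X i) : ℝ) * log 2 ≤ log (X i : ℝ) := by
      rw [← log_pow]
      refine log_le_log (by positivity) ?_
      exact_mod_cast Nat.pow_log_le_self 2 (by have := hX i; omega)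
    have a5 : 2 * ((Nat.log 2 (X i) : ℝ) + 1) ≤ 9 * log (X i : ℝ) := by
      have : (0 : ℝ) ≤ Nat.log 2 (X i) := Nat.cast_nonneg _
      nlinarith
    have a6 : √(2 * ((Nat.log 2 (X i) : ℝ) + 1) * Q) ≤ 3 * √(log (X i : ℝ) * Q) := by
      rw [show (3 : ℝ) = √9 by rw [show (9 : ℝ) = 3 ^ 2 by norm_num, sqrt_sq (by norm_num)],
        ← sqrt_mul (by norm_num), ← mul_assoc]
      exact sqrt_le_sqrt (mul_le_mul_of_nonneg_right a5 hsq)
    have a7 : K + 2 * log ((i : ℝ) + 1) ≤ (2 * K + 2) * log ((i : ℝ) + 2) := by nlinarith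
    calc _ ≤ ((2 * K + 2) * log ((i : ℝ) + 2)) * (3 * √(log (X i : ℝ) * Q)) :=
          mul_le_mul a7 a6 (sqrt_nonneg _) (by have : 0 < log ((i : ℝ) + 2) := by linarith
                                               positivity)
      _ = _ := by ring

end Pool.Agent.FS.HalfPrimes
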