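import Pool.Agent.Lib.MP_0d244d_nt.Main

/-! The mean of `1 / (p (n + 2) - p n)` is of order `1 / log n`. -/

open Finset Real Filter
open Pool.Agent.Lib.MP_0d244d_nt

namespace Pool.Agent.FS.HalfPrimes

lemma cnt : ∃ C : ℝ, 0 < C ∧ ∀ᶠ x : ℕ in atTop, ∀ t : ℕ, 1 ≤ t → ∀ S : Finset ℕ,
    (∀ n ∈ S, pr n < x ∧ pr (n + 2) - pr n ≤ t) →
      (S.card : ℝ) ≤ C * t ^ 2 * x / log x ^ 3 := by
  classical
  obtain ⟨w, hw, hr, hw'⟩ : ∃ w : ℕ, (2 * (2 + 1) ^ 3) ^ 2 ≤ w ∧ (2 * (1 + (2 + 1))) ^ 1 ≤ w ∧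
      1 ≤ w := ex3 _ _ _
  have hW0 : 0 < primorial w := primorial_pos w
  have hlog : Tendsto (fun x : ℕ => log (x : ℝ)) atTop atTop :=
    tendsto_log_atTop.comp tendsto_natCast_atTop_atTop
  refine ⟨1400000 * (primorial w : ℝ) ^ 3, by positivity, ?_⟩
  filter_upwards [hlog.eventually_ge_atTop 384, hlog.eventually_ge_atTop (8 * w),
    eventually_ge_atTop (primorial w)] with x h1 h2 h3 t ht S hS
  have hx : (0 : ℝ) < x := by exact_mod_cast hW0.trans_le h3
  set L := log (x : ℝ) with hL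
  set y := exp (L / 8) with hy
  have hy1 : L / 8 + 1 ≤ y := add_one_le_exp _
  have hy2 : 1 < y := by linarith
  have hyx : y ^ 4 * y ^ 4 = x := by
    rw [← pow_add, hy, ← exp_nat_mul, ← exp_log hx, ← hL]; congr 1; push_cast; ring
  have hy4 : L ^ 3 ≤ y ^ 4 := by
    have e : y ^ 4 = exp (L / 2) := by rw [hy, ← exp_nat_mul]; congr 1; push_cast; ring
    have h := pow_div_factorial_le_exp (L / 2) (by linarith) 4
    rw [e]
    refine le_trans ?_ h
    have : (0 : ℝ) ≤ L ^ 3 := by positivity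
    simp only [Nat.factorial]; push_cast; nlinarith
  have h4 := region (k := 2) (J0 := t + 1) (x := x) hw hr one_ne_zero hy2 (by rw [pow_one]; linarith)
    (Fintype.piFinset fun _ => range (t + 1)) Subset.rfl
    (S.image fun n => (pr n, fun l : Fin 2 => dg (n + l))) fun a ha => by
      obtain ⟨n, hn, rfl⟩ := mem_image.1 ha
      obtain ⟨b1, b2⟩ := hS n hn
      have e1 := pr_succ n
      have e2 := pr_succ (n + 1)
      rw [add_assoc] at e2
      refine ⟨b1, fun l => dg_pos _, Fintype.mem_piFinset.2 fun l => mem_range.2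
        (Nat.lt_succ_of_le ((Nat.div_le_self _ _).trans ?_)), fun i => ?_⟩
      · fin_cases l
        · simp only [add_zero]; norm_num at e2; omega
        · simp only; norm_num at e2; omega
      · simp only; rw [pr_off n i (Nat.lt_succ_iff.1 i.2)]; exact pr_prime _
  rw [card_image_of_injective _ fun a b h => pr_mono.injective (Prod.mk.inj h).1,
    Fintype.card_piFinset, prod_const, card_range, card_univ, Fintype.card_fin, pow_one, hy,
    log_exp, ← hy] at h4
  refine h4.trans ?_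
  have hW1 : (1 : ℝ) ≤ primorial w := by exact_mod_cast hW0
  have hWx : (primorial w : ℝ) ≤ x := by exact_mod_cast h3
  generalize hJ : t + 1 = J at *
  have hJ1 : (1 : ℝ) ≤ J := by exact_mod_cast (show 1 ≤ J by omega)
  have hJt : (J : ℝ) ≤ 2 * t := by exact_mod_cast (show J ≤ 2 * t by omega)
  have s1 : 2 / √(w : ℝ) ≤ 2 := div_le_self zero_le_two (one_le_sqrt.2 (by exact_mod_cast hw'))
  have s2 : √((2 * (primorial w * J) : ℕ) : ℝ) ≤ 2 * (primorial w * J) := by
    push_cast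
    refine sqrt_le_iff.2 ⟨by positivity, ?_⟩
    have : (1 : ℝ) ≤ primorial w * J := one_le_mul_of_one_le_of_one_le hW1 hJ1
    nlinarith
  generalize √((2 * (primorial w * J) : ℕ) : ℝ) = z at *
  generalize 2 / √(w : ℝ) = u at *
  generalize (primorial w : ℝ) = W at *
  have hL0 : 0 < L := by linarith
  have b1 : ((J ^ 2 : ℕ) : ℝ) + ((2 : ℕ) + 1) ^ 2 * (J ^ (2 - 1) * (J * u + 2 * z)) ≤
      220 * W * t ^ 2 := by
    push_cast
    have c1 : (J : ℝ) * u + 2 * z ≤ 6 * W * J := by nlinarith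
    have c2 : (J : ℝ) ^ 2 ≤ 4 * t ^ 2 := by nlinarith
    have c3 : (J : ℝ) * (J * u + 2 * z) ≤ 6 * W * J ^ 2 := by nlinarith
    have c4 : W * (J : ℝ) ^ 2 ≤ 4 * W * t ^ 2 := by nlinarith
    have c5 : (J : ℝ) ^ 2 ≤ W * J ^ 2 := by nlinarith
    rw [pow_one]; linarith
  have b2 : y + 1 + W * y ^ (2 * 1 + 2) ≤ 3 * W * (x / L ^ 3) := by
    have c1 : y ^ 4 ≤ x / L ^ 3 := by
      rw [le_div_iff₀ (by positivity), ← hyx]
      exact mul_le_mul_of_nonneg_left hy4 (by positivity)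
    have c2 : y ≤ y ^ 4 := le_self_pow₀ hy2.le (by norm_num)
    have c3 : y ^ 4 ≤ W * y ^ 4 := le_mul_of_one_le_left (by positivity) hW1
    have c4 := mul_le_mul_of_nonneg_left c1 (show 0 ≤ W by linarith)
    norm_num; linarith
  have hW0' : 0 < W := by linarith
  calc _ ≤ (2 * x) * 6 * W ^ 2 / (L / 8) ^ 3 * (220 * W * t ^ 2) +
        (W * (2 * t)) ^ 2 * (3 * W * (x / L ^ 3)) := by
        refine add_le_add ((mul_le_mul_of_nonneg_left b1 (by positivity)).trans
          (mul_le_mul_of_nonneg_right ?_ (by positivity))) ?_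
        · simp only [Nat.factorial]; push_cast; gcongr; linarith
        · gcongr
    _ = 1351692 * (W ^ 3 * t ^ 2 * x / L ^ 3) := by field_simp; ring
    _ ≤ 1400000 * (W ^ 3 * t ^ 2 * x / L ^ 3) := by gcongr; norm_num
    _ = _ := by ring

lemma inv_le {g : ℕ} (hg : 1 ≤ g) {T : ℕ} (hT : 1 ≤ T) :
    1 / (g : ℝ) ≤ 1 / T + ∑ t ∈ Ico 1 T, if g ≤ t then 1 / (t : ℝ) ^ 2 else 0 := by
  induction T, hT using Nat.le_induction with
  | base => simpa using inv_le_one_of_one_le₀ (show (1 : ℝ) ≤ g by exact_mod_cast hg)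
  | succ T hT ih =>
    by_cases h : g ≤ T
    · rw [sum_Ico_succ_top hT, if_pos h]
      have h1 : (1 : ℝ) ≤ T := by exact_mod_cast hT
      have h2 : 1 / (T : ℝ) ≤ 1 / ((T + 1 : ℕ) : ℝ) + 1 / (T : ℝ) ^ 2 := by
        push_cast
        rw [div_add_div _ _ (by positivity) (by positivity), div_le_div_iff₀ (by positivity)
          (by positivity)]
        nlinarith
      linarith
    · have h1 : 1 / (g : ℝ) ≤ 1 / ((T + 1 : ℕ) : ℝ) :=
        one_div_le_one_div_of_le (by positivity) (by exact_mod_cast (show T + 1 ≤ g by omega))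
      have h2 : 0 ≤ ∑ t ∈ Ico 1 (T + 1), if g ≤ t then 1 / (t : ℝ) ^ 2 else 0 :=
        sum_nonneg fun t _ => by split_ifs <;> positivity
      linarith

theorem gsum : ∃ C : ℝ, 0 < C ∧ ∀ᶠ N : ℕ in atTop,
    ∑ n ∈ range N, 1 / ((pr (n + 2) - pr n : ℕ) : ℝ) ≤ C * N / log N := by
  obtain ⟨C, hC, h⟩ := cnt
  have hle : ∀ N, N ≤ pr N + 1 := fun N => by have := pr_mono.le_apply (x := N); omega
  have ht : Tendsto (fun N => pr N + 1) atTop atTop := tendsto_atTop_mono hle tendsto_id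
  have hlog : Tendsto (fun x : ℕ => log (x : ℝ)) atTop atTop :=
    tendsto_log_atTop.comp tendsto_natCast_atTop_atTop
  refine ⟨1 + 6 * C, by positivity, ?_⟩
  filter_upwards [ht.eventually h, ht.eventually pi_ge, hlog.eventually_ge_atTop 1,
    eventually_ge_atTop 2] with N hc hπ hN h2N
  have hN2 : (2 : ℝ) ≤ N := by exact_mod_cast h2N
  have hNx : log (N : ℝ) ≤ log ((pr N + 1 : ℕ) : ℝ) :=
    log_le_log (by linarith) (by exact_mod_cast hle N)
  have h1 : Nat.primeCounting (pr N + 1) ≤ N + 2 := by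
    have := Nat.count_nth_of_infinite Nat.infinite_setOfPred_prime N
    rw [Nat.primeCounting, Nat.primeCounting', Nat.count_succ, Nat.count_succ, pr, this]
    split_ifs <;> omega
  have hlt : ∀ n < N, pr n < pr N + 1 := fun n hn => (pr_mono hn).trans (Nat.lt_succ_self _)
  generalize pr N + 1 = x at *
  set L := log (x : ℝ) with hL
  have hL1 : 1 ≤ L := hN.trans hNx
  have h2 : (x : ℝ) ≤ 3 * N * L := by
    have h3 : (Nat.primeCounting x : ℝ) ≤ N + 2 := by exact_mod_cast h1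
    have h4 := mul_le_mul_of_nonneg_right h3 (show 0 ≤ L by linarith)
    nlinarith
  set T := ⌈L⌉₊ with hT
  have hT1 : L ≤ T := Nat.le_ceil L
  have hT2 : (T : ℝ) ≤ 2 * L := by linarith [Nat.ceil_lt_add_one (show 0 ≤ L by linarith)]
  have hT3 : 1 ≤ T := by exact_mod_cast hL1.trans hT1
  have h5 : ∀ n ∈ range N, 1 / ((pr (n + 2) - pr n : ℕ) : ℝ) ≤
      1 / T + ∑ t ∈ Ico 1 T, if pr (n + 2) - pr n ≤ t then 1 / (t : ℝ) ^ 2 else 0 := fun n _ =>
    inv_le (Nat.sub_pos_of_lt (pr_mono (by omega))) hT3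
  refine (sum_le_sum h5).trans ?_
  rw [sum_add_distrib, sum_comm, sum_const, card_range, nsmul_eq_mul]
  have h6 : ∀ t ∈ Ico 1 T, (∑ n ∈ range N, if pr (n + 2) - pr n ≤ t then 1 / (t : ℝ) ^ 2 else 0) ≤
      C * x / L ^ 3 := fun t ht => by
    have h7 := (mem_Ico.1 ht).1
    have h8 : (0 : ℝ) < t := by exact_mod_cast h7
    rw [← sum_filter, sum_const, nsmul_eq_mul, mul_one_div, div_le_iff₀ (by positivity)]
    refine (hc t h7 _ fun n hn => ⟨hlt n (mem_range.1 (mem_filter.1 hn).1),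
      (mem_filter.1 hn).2⟩).trans (le_of_eq (by ring))
  have h9 := sum_le_card_nsmul _ _ _ h6
  rw [nsmul_eq_mul, Nat.card_Ico] at h9
  have h10 : ((T - 1 : ℕ) : ℝ) ≤ 2 * L := le_trans (by exact_mod_cast Nat.sub_le T 1) hT2
  have hL0 : 0 < L := by linarith
  calc _ ≤ N * (1 / L) + 2 * L * (C * (3 * N * L) / L ^ 3) := by
        refine add_le_add (by gcongr) (h9.trans (by gcongr))
    _ = (1 + 6 * C) * N / L := by field_simp; ring
    _ ≤ _ := by gcongr

end Pool.Agent.FS.HalfPrimes
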