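import Pool.Agent.FS.HalfPrimes.Gap
import Pool.Agent.FS.HalfPrimes.Dist

/-! The series for the chosen half of the primes. -/

open Finset Real Filter
open Pool.Agent.Lib.MP_0d244d_nt

namespace Pool.Agent.FS.HalfPrimes

theorem dyadic {f : ℕ → ℝ} (hf : ∀ n, 0 ≤ f n) :
    Summable f ↔ Summable fun m : ℕ => ∑ n ∈ Ico (2 ^ m) (2 * 2 ^ m), f n := by
  have hb : ∀ m : ℕ, 0 ≤ ∑ n ∈ Ico (2 ^ m) (2 * 2 ^ m), f n := fun m => sum_nonneg fun n _ => hf n
  have h2 : ∀ M : ℕ, ∑ n ∈ range (2 ^ M), f n =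
      f 0 + ∑ m ∈ range M, ∑ n ∈ Ico (2 ^ m) (2 * 2 ^ m), f n := by
    intro M
    induction M with
    | zero => simp
    | succ M ih =>
      rw [sum_range_succ, ← add_assoc, ← ih, pow_succ', sum_range_add_sum_Ico _ (by omega)]
  refine ⟨fun h => summable_of_sum_range_le (c := ∑' n, f n) hb fun M => ?_,
    fun h => summable_of_sum_range_le (c := f 0 +
      ∑' m : ℕ, ∑ n ∈ Ico (2 ^ m) (2 * 2 ^ m), f n) hf fun M => ?_⟩
  · have h3 := h.sum_le_tsum (range (2 ^ M)) fun n _ => hf n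
    have h4 := hf 0
    rw [h2] at h3
    linarith
  · have h3 := h.sum_le_tsum (range M) fun n _ => hb n
    have h4 : ∑ n ∈ range M, f n ≤ ∑ n ∈ range (2 ^ M), f n :=
      sum_le_sum_of_subset_of_nonneg (range_subset_range.2 Nat.lt_two_pow_self.le)
        fun n _ _ => hf n
    rw [h2] at h4
    linarith

theorem bertrand {y : ℝ} (hy : 0 ≤ y) :
    (Summable fun N : ℕ => 1 / ((N : ℝ) * Real.log N ^ y)) ↔ 1 < y := by
  rw [← summable_condensed_iff_of_eventually_nonneg, ← Real.summable_one_div_nat_rpow]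
  · have h2 : (0 : ℝ) < Real.log 2 := Real.log_pos one_lt_two
    rw [← summable_mul_left_iff (a := 1 / Real.log 2 ^ y) (by positivity)
      (f := fun n : ℕ => 1 / (n : ℝ) ^ y)]
    refine summable_congr fun j => Eq.symm ?_
    push_cast
    rw [Real.log_pow, Real.mul_rpow j.cast_nonneg h2.le]
    have h3 : (2 : ℝ) ^ j ≠ 0 := by positivity
    rw [mul_one_div (2 ^ j), div_mul_cancel_left₀ h3, one_div_mul_one_div, mul_comm, one_div]
  · exact Eventually.of_forall fun N => div_nonneg zero_le_one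
      (mul_nonneg N.cast_nonneg (Real.rpow_nonneg (Real.log_natCast_nonneg N) _))
  · filter_upwards [eventually_ge_atTop 2] with N hN
    have h1 : (2 : ℝ) ≤ N := by exact_mod_cast hN
    have h2 : 0 < Real.log N := Real.log_pos (by linarith)
    refine one_div_le_one_div_of_le (by positivity) ?_
    push_cast
    exact mul_le_mul (by linarith) (Real.rpow_le_rpow h2.le
      (Real.log_le_log (by linarith) (by linarith)) hy) (by positivity) (by linarith)

/-- the chosen prime of the pair number `m` -/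
noncomputable def sel (ε : ℕ → ℕ) (m : ℕ) : ℕ := pr (2 * m + ε (blk m))

variable {ε : ℕ → ℕ}

lemma gap_ge (he : ∀ j, ε j ≤ 1) (m : ℕ) : (1 : ℝ) ≤ (sel ε (m + 1) : ℝ) - sel ε m := by
  have h1 := he (blk m)
  have h2 : sel ε m + 1 ≤ sel ε (m + 1) := pr_mono (by omega)
  have h3 : (sel ε m : ℝ) + 1 ≤ sel ε (m + 1) := by exact_mod_cast h2
  linarith

lemma two_pow_tendsto (a b : ℕ) (ha : 1 ≤ a) : Tendsto (fun k : ℕ => a * 2 ^ k + b) atTop atTop :=
  tendsto_atTop_mono (fun k => by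
    have := Nat.lt_two_pow_self (n := k)
    simp only [id]; nlinarith) tendsto_id

lemma block_up (he : ∀ j, ε j ≤ 1) : ∃ C : ℝ, 0 < C ∧ ∀ᶠ k : ℕ in atTop,
    ∑ m ∈ Ico (2 ^ k) (2 * 2 ^ k), 1 / ((sel ε (m + 1) : ℝ) - sel ε m) ≤ C * 2 ^ k / k := by
  obtain ⟨C, hC, h⟩ := gsum
  refine ⟨3 + 16 * C, by positivity, ?_⟩
  filter_upwards [(two_pow_tendsto 4 0 (by norm_num)).eventually h, eventually_ge_atTop 1]
    with k hk h1
  rw [add_zero] at hk
  set g : ℕ → ℝ := fun n => 1 / ((pr (n + 2) - pr n : ℕ) : ℝ) with hg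
  have g0 : ∀ n, 0 ≤ g n := fun n => by simp only [hg]; positivity
  have h2 : ∀ m ∈ Ico (2 ^ k) (2 * 2 ^ k), 1 / ((sel ε (m + 1) : ℝ) - sel ε m) ≤
      (if m = 2 * 2 ^ k - 1 then 1 else 0) + (if k + 1 ∣ m + 1 then 1 else 0) +
        (g (2 * m) + g (2 * m + 1)) := by
    intro m hm
    obtain ⟨m1, m2⟩ := mem_Ico.1 hm
    have a0 := g0 (2 * m)
    have a1 := g0 (2 * m + 1)
    have a2 : 1 / ((sel ε (m + 1) : ℝ) - sel ε m) ≤ 1 := by
      have := gap_ge he m
      rw [div_le_one (by linarith)]; exact this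
    split_ifs with c1 c2 c2
    · linarith
    · linarith
    · linarith
    have l1 : Nat.log 2 m = k := Nat.log_eq_of_pow_le_of_lt_pow m1 (by rw [pow_succ']; exact m2)
    have l2 : Nat.log 2 (m + 1) = k :=
      Nat.log_eq_of_pow_le_of_lt_pow (by omega) (by rw [pow_succ']; omega)
    have l3 : blk (m + 1) = blk m := by rw [blk, blk, l1, l2, Nat.succ_div, if_neg c2, add_zero]
    have l4 : 1 / ((sel ε (m + 1) : ℝ) - sel ε m) = g (2 * m + ε (blk m)) := by
      simp only [hg, sel]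
      rw [l3, Nat.cast_sub (pr_mono.monotone (by omega))]
      congr 4; ring
    rw [l4]
    rcases Nat.le_one_iff_eq_zero_or_eq_one.1 (he (blk m)) with e | e <;> rw [e] <;>
      simp only [add_zero] <;> linarith
  refine (sum_le_sum h2).trans ?_
  rw [sum_add_distrib, sum_add_distrib, sum_add_distrib, sum_ite_eq', sum_boole]
  have b1 : (((Ico (2 ^ k) (2 * 2 ^ k)).filter fun m => k + 1 ∣ m + 1).card : ℝ) ≤
      2 * 2 ^ k / k := by
    have c1 : ((Ico (2 ^ k) (2 * 2 ^ k)).filter fun m => k + 1 ∣ m + 1).card ≤ 2 * 2 ^ k / (k + 1) := by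
      rw [← Nat.card_multiples]
      exact card_le_card (filter_subset_filter _ fun m hm => mem_range.2 (mem_Ico.1 hm).2)
    have c2 := Nat.cast_div_le (α := ℝ) (m := 2 * 2 ^ k) (n := k + 1)
    have c3 : (0 : ℝ) < k := by exact_mod_cast h1
    refine (Nat.cast_le.2 c1).trans (c2.trans ?_)
    push_cast
    gcongr; linarith
  have b2 : ∀ e ≤ 1, ∑ m ∈ Ico (2 ^ k) (2 * 2 ^ k), g (2 * m + e) ≤ 8 * C * 2 ^ k / k := by
    intro e he'
    rw [← sum_image (s := Ico (2 ^ k) (2 * 2 ^ k)) (g := fun m => 2 * m + e) (f := g)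
      fun a _ b _ h => by simp only at h; omega]
    refine (sum_le_sum_of_subset_of_nonneg (t := range (4 * 2 ^ k)) (fun n hn => ?_)
      fun n _ _ => g0 n).trans (hk.trans ?_)
    · obtain ⟨m, hm, rfl⟩ := mem_image.1 hn
      have := (mem_Ico.1 hm).2
      exact mem_range.2 (by omega)
    · have c3 : (0 : ℝ) < k := by exact_mod_cast h1
      have l2 := log_two_gt_d9
      have c4 : (k : ℝ) / 2 ≤ log ((4 * 2 ^ k : ℕ) : ℝ) := by
        have : log ((2 : ℝ) ^ k) ≤ log ((4 * 2 ^ k : ℕ) : ℝ) := by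
          refine log_le_log (by positivity) ?_
          push_cast; nlinarith [pow_pos (two_pos (α := ℝ)) k]
        rw [log_pow] at this; nlinarith
      calc _ ≤ C * ((4 * 2 ^ k : ℕ) : ℝ) / (k / 2) := by gcongr
        _ = _ := by push_cast; field_simp; ring
  have b3 : (1 : ℝ) ≤ 2 ^ k / k := by
    have c3 : (0 : ℝ) < k := by exact_mod_cast h1
    rw [le_div_iff₀ c3, one_mul]
    exact_mod_cast Nat.lt_two_pow_self.le
  have b4 := b2 0 (by norm_num)
  have b5 := b2 1 le_rfl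
  simp only [add_zero] at b4
  have b6 : (if 2 * 2 ^ k - 1 ∈ Ico (2 ^ k) (2 * 2 ^ k) then (1 : ℝ) else 0) ≤ 1 := by
    split_ifs <;> norm_num
  have e : (3 + 16 * C) * 2 ^ k / k =
      2 ^ k / k + 2 * 2 ^ k / k + (8 * C * 2 ^ k / k + 8 * C * 2 ^ k / (k : ℝ)) := by ring
  rw [e]; linarith

lemma pr_le : ∀ᶠ N : ℕ in atTop, (pr N : ℝ) ≤ 9 * N * log N := by
  have hle : ∀ N, N ≤ pr N + 1 := fun N => by have := pr_mono.le_apply (x := N); omega
  have ht : Tendsto (fun N => pr N + 1) atTop atTop := tendsto_atTop_mono hle tendsto_id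
  filter_upwards [ht.eventually pi_ge, eventually_ge_atTop 36] with N hπ hN
  have hN2 : (36 : ℝ) ≤ N := by exact_mod_cast hN
  have h1 : Nat.primeCounting (pr N + 1) ≤ N + 2 := by
    have := Nat.count_nth_of_infinite Nat.infinite_setOfPred_prime N
    rw [Nat.primeCounting, Nat.primeCounting', Nat.count_succ, Nat.count_succ, pr, this]
    split_ifs <;> omega
  have h0 : (pr N : ℝ) ≤ ((pr N + 1 : ℕ) : ℝ) := by exact_mod_cast Nat.le_succ _
  have hx : (N : ℝ) ≤ ((pr N + 1 : ℕ) : ℝ) := by exact_mod_cast hle N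
  refine h0.trans ?_
  generalize pr N + 1 = x at *
  have hx0 : (0 : ℝ) < x := by linarith
  have hL : 0 ≤ log (x : ℝ) := log_nonneg (by linarith)
  have h2 : (x : ℝ) ≤ 3 * N * log x := by
    have h3 : (Nat.primeCounting x : ℝ) ≤ N + 2 := by exact_mod_cast h1
    have h4 := mul_le_mul_of_nonneg_right h3 hL
    nlinarith
  have hs := sqrt_pos.2 hx0
  have h5 : log (x : ℝ) ≤ 2 * √x := by
    have := log_le_sub_one_of_pos hs
    rw [log_sqrt hx0.le] at this; linarith
  have h6 : √(x : ℝ) ≤ 6 * N := by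
    have := mul_self_sqrt hx0.le
    nlinarith
  have h7 : (x : ℝ) ≤ N ^ 3 := by
    have a := mul_le_mul h6 h6 hs.le (by linarith)
    rw [mul_self_sqrt hx0.le] at a
    have b := mul_le_mul_of_nonneg_right hN2 (sq_nonneg (N : ℝ))
    nlinarith
  have h8 := log_le_log hx0 h7
  rw [log_pow] at h8
  push_cast at h8
  nlinarith

lemma block_lo (he : ∀ j, ε j ≤ 1) : ∀ᶠ k : ℕ in atTop,
    2 ^ k / (144 * k) ≤ ∑ m ∈ Ico (2 ^ k) (2 * 2 ^ k), 1 / ((sel ε (m + 1) : ℝ) - sel ε m) := by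
  filter_upwards [(two_pow_tendsto 4 1 (by norm_num)).eventually pr_le, eventually_ge_atTop 3]
    with k hk h3
  have h1 := sq_sum_div_le_sum_sq_div (Ico (2 ^ k) (2 * 2 ^ k)) (fun _ => (1 : ℝ))
    (g := fun m => (sel ε (m + 1) : ℝ) - sel ε m) fun m _ => by linarith [gap_ge he m]
  simp only [one_pow] at h1
  refine le_trans ?_ h1
  have hp : 0 < 2 ^ k := by positivity
  have hpos : 0 < ∑ m ∈ Ico (2 ^ k) (2 * 2 ^ k), ((sel ε (m + 1) : ℝ) - sel ε m) :=
    sum_pos (fun m _ => by linarith [gap_ge he m]) ⟨2 ^ k, mem_Ico.2 ⟨le_rfl, by omega⟩⟩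
  have c3 : (3 : ℝ) ≤ k := by exact_mod_cast h3
  have h2 : ∑ m ∈ Ico (2 ^ k) (2 * 2 ^ k), ((sel ε (m + 1) : ℝ) - sel ε m) ≤ 144 * k * 2 ^ k := by
    rw [sum_Ico_sub (fun m => (sel ε m : ℝ)) (by omega)]
    have a1 : (sel ε (2 * 2 ^ k) : ℝ) ≤ pr (4 * 2 ^ k + 1) := by
      have := he (blk (2 * 2 ^ k))
      exact_mod_cast pr_mono.monotone (by omega)
    have a2 : ((4 * 2 ^ k + 1 : ℕ) : ℝ) ≤ 2 ^ 3 * 2 ^ k := by
      exact_mod_cast (show 4 * 2 ^ k + 1 ≤ 2 ^ 3 * 2 ^ k by omega)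
    have a3 : log ((4 * 2 ^ k + 1 : ℕ) : ℝ) ≤ 2 * k := by
      have := log_le_log (by positivity) a2
      rw [← pow_add, log_pow] at this
      push_cast at this ⊢
      nlinarith [log_two_lt_d9, log_two_gt_d9]
    have a4 : (0 : ℝ) ≤ sel ε (2 ^ k) := Nat.cast_nonneg _
    have a5 := mul_le_mul a2 a3 (log_natCast_nonneg _) (by positivity)
    nlinarith
  rw [sum_const, Nat.card_Ico, show 2 * 2 ^ k - 2 ^ k = 2 ^ k by omega, nsmul_eq_mul, mul_one,
    div_le_div_iff₀ (by positivity) hpos]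
  push_cast
  nlinarith [pow_pos (two_pos (α := ℝ)) k]

lemma ll_bounds {k m : ℕ} (hk : 4 ≤ log (k : ℝ)) (hm : m ∈ Ico (2 ^ k) (2 * 2 ^ k)) :
    log (k : ℝ) / 2 ≤ log (log ((m : ℝ) + 1)) ∧ log (log ((m : ℝ) + 1)) ≤ 2 * log (k : ℝ) ∧
      (2 : ℝ) ^ k ≤ (m : ℝ) + 1 ∧ (m : ℝ) + 1 ≤ 2 * 2 ^ k := by
  obtain ⟨m1, m2⟩ := mem_Ico.1 hm
  have a1 : (2 : ℝ) ^ k ≤ (m : ℝ) + 1 := by exact_mod_cast (show 2 ^ k ≤ m + 1 by omega)
  have a2 : (m : ℝ) + 1 ≤ 2 * 2 ^ k := by exact_mod_cast (show m + 1 ≤ 2 * 2 ^ k by omega)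
  have k1 : (5 : ℝ) ≤ k := by
    rcases Nat.eq_zero_or_pos k with rfl | h
    · norm_num at hk
    · linarith [log_le_sub_one_of_pos (show (0 : ℝ) < k by exact_mod_cast h)]
  have l1 := log_two_gt_d9
  have l2 := log_two_lt_d9
  have b1 : (k : ℝ) / 2 ≤ log ((m : ℝ) + 1) := by
    have := log_le_log (by positivity) a1
    rw [log_pow] at this; nlinarith
  have b2 : log ((m : ℝ) + 1) ≤ (k : ℝ) ^ 2 := by
    have := log_le_log (by positivity) a2
    rw [← pow_succ', log_pow] at this; push_cast at this; nlinarith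
  refine ⟨?_, ?_, a1, a2⟩
  · have := log_le_log (by linarith) b1
    rw [log_div (by linarith) two_ne_zero] at this; linarith
  · have := log_le_log (by linarith) b2
    rw [log_pow] at this; exact_mod_cast this

theorem series (he : ∀ j, ε j ≤ 1) (c : ℝ) :
    (Summable fun m : ℕ => 1 / (((m : ℝ) + 1) * log (log ((m : ℝ) + 1)) ^ c *
      ((sel ε (m + 1) : ℝ) - sel ε m))) ↔ 1 < c := by
  have hlog : Tendsto (fun x : ℕ => log (x : ℝ)) atTop atTop :=
    tendsto_log_atTop.comp tendsto_natCast_atTop_atTop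
  rw [← summable_abs_iff, dyadic fun _ => abs_nonneg _]
  constructor
  · intro hs
    by_contra hc
    push Not at hc
    refine absurd ((bertrand zero_le_one).1 ?_) (lt_irrefl _)
    refine Summable.of_norm_bounded_eventually_nat (hs.mul_left 576) ?_
    filter_upwards [block_lo he, hlog.eventually_ge_atTop 4, eventually_ge_atTop 1] with k h1 h2 h3
    have c3 : (0 : ℝ) < k := by exact_mod_cast h3
    have c4 : 0 < log (k : ℝ) := by linarith
    rw [rpow_one, Real.norm_of_nonneg (by positivity)]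
    calc _ = 576 * (1 / (2 * 2 ^ k * (2 * log (k : ℝ))) * (2 ^ k / (144 * k))) := by
          field_simp; ring
      _ ≤ 576 * (1 / (2 * 2 ^ k * (2 * log (k : ℝ))) *
          ∑ m ∈ Ico (2 ^ k) (2 * 2 ^ k), 1 / ((sel ε (m + 1) : ℝ) - sel ε m)) := by gcongr
      _ ≤ _ := by
        rw [mul_sum]
        refine mul_le_mul_of_nonneg_left (sum_le_sum fun m hm => le_trans ?_ (le_abs_self _))
          (by norm_num)
        obtain ⟨a1, a2, a3, a4⟩ := ll_bounds h2 hm
        have a5 := gap_ge he m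
        have a6 : log (log ((m : ℝ) + 1)) ^ c ≤ 2 * log (k : ℝ) := by
          have := rpow_le_rpow_of_exponent_le (show 1 ≤ log (log ((m : ℝ) + 1)) by linarith) hc
          rw [rpow_one] at this; linarith
        have a7 := rpow_pos_of_pos (show 0 < log (log ((m : ℝ) + 1)) by linarith) c
        have a8 : 0 < (sel ε (m + 1) : ℝ) - sel ε m := by linarith
        rw [one_div_mul_one_div]
        refine one_div_le_one_div_of_le (by positivity) ?_
        gcongr
  · intro hc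
    obtain ⟨C, hC, h⟩ := block_up he
    refine Summable.of_norm_bounded_eventually_nat
      (((bertrand (by linarith)).2 hc).mul_left (C * 2 ^ c)) ?_
    filter_upwards [h, hlog.eventually_ge_atTop 4, eventually_ge_atTop 1] with k h1 h2 h3
    have c3 : (0 : ℝ) < k := by exact_mod_cast h3
    have c4 : 0 < log (k : ℝ) := by linarith
    have c5 := rpow_pos_of_pos (show 0 < log (k : ℝ) / 2 by linarith) c
    rw [Real.norm_of_nonneg (sum_nonneg fun _ _ => abs_nonneg _)]
    calc _ ≤ 1 / (2 ^ k * (log (k : ℝ) / 2) ^ c) *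
          ∑ m ∈ Ico (2 ^ k) (2 * 2 ^ k), 1 / ((sel ε (m + 1) : ℝ) - sel ε m) := by
          rw [mul_sum]
          refine sum_le_sum fun m hm => ?_
          obtain ⟨a1, a2, a3, a4⟩ := ll_bounds h2 hm
          have a5 := gap_ge he m
          have a7 := rpow_pos_of_pos (show 0 < log (log ((m : ℝ) + 1)) by linarith) c
          have a8 : 0 < (sel ε (m + 1) : ℝ) - sel ε m := by linarith
          have a6 := rpow_le_rpow (show 0 ≤ log (k : ℝ) / 2 by linarith) a1 (show 0 ≤ c by linarith)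
          rw [abs_of_nonneg (by positivity), one_div_mul_one_div]
          refine one_div_le_one_div_of_le (by positivity) ?_
          gcongr
      _ ≤ 1 / (2 ^ k * (log (k : ℝ) / 2) ^ c) * (C * 2 ^ k / k) := by gcongr
      _ = _ := by
          rw [div_rpow c4.le zero_le_two]
          have := rpow_pos_of_pos c4 c
          have := rpow_pos_of_pos (two_pos (α := ℝ)) c
          field_simp

end Pool.Agent.FS.HalfPrimes
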