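import Mathlib

/-! A choice of signs that keeps countably many signed sums small. -/

open Finset Real

namespace Pool.Agent.FS.HalfPrimes

noncomputable def pot (a v : ℝ) : ℝ := cosh a * exp (-v / 2)

lemma pot_nonneg (a v : ℝ) : 0 ≤ pot a v := (mul_pos (cosh_pos a) (exp_pos _)).le

lemma pot_step (a v b : ℝ) :
    pot (a + 1 * b) (v + b ^ 2) + pot (a + -1 * b) (v + b ^ 2) ≤ pot a v + pot a v := by
  unfold pot
  have h1 := cosh_le_exp_half_sq b
  have h2 : exp (-(v + b ^ 2) / 2) * exp (b ^ 2 / 2) = exp (-v / 2) := by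
    rw [← exp_add]; congr 1; ring
  rw [one_mul, neg_one_mul, ← sub_eq_add_neg, cosh_add, cosh_sub, ← h2]
  have h3 := cosh_pos a
  have h4 := exp_pos (-(v + b ^ 2) / 2)
  nlinarith [mul_le_mul_of_nonneg_left h1 (mul_pos h3 h4).le]

noncomputable def Phi (A V : ℕ → ℝ) : ENNReal :=
  ∑' i : ℕ, ENNReal.ofReal (1 / ((i : ℝ) + 1) ^ 2 * pot (A i) (V i))

lemma Phi_step (A V b : ℕ → ℝ) : ∃ s : ℝ, (s = 1 ∨ s = -1) ∧
    Phi (fun i => A i + s * b i) (fun i => V i + b i ^ 2) ≤ Phi A V := by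
  by_contra h
  push Not at h
  have h1 := ENNReal.add_lt_add (h 1 (Or.inl rfl)) (h (-1) (Or.inr rfl))
  refine absurd h1 (not_lt.2 ?_)
  unfold Phi
  rw [← ENNReal.tsum_add, ← ENNReal.tsum_add]
  refine ENNReal.tsum_le_tsum fun i => ?_
  have hw : (0 : ℝ) ≤ 1 / ((i : ℝ) + 1) ^ 2 := by positivity
  rw [← ENNReal.ofReal_add (mul_nonneg hw (pot_nonneg _ _)) (mul_nonneg hw (pot_nonneg _ _)),
    ← ENNReal.ofReal_add (mul_nonneg hw (pot_nonneg _ _)) (mul_nonneg hw (pot_nonneg _ _)),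
    ← mul_add, ← mul_add]
  exact ENNReal.ofReal_le_ofReal (mul_le_mul_of_nonneg_left (pot_step _ _ _) hw)

lemma Phi_zero : Phi (fun _ => 0) (fun _ => 0) ≠ ⊤ := by
  have h : Summable fun i : ℕ => 1 / ((i : ℝ) + 1) ^ 2 := by
    have := (summable_nat_add_iff 1).2 (summable_one_div_nat_pow.2 one_lt_two)
    simpa using this
  have e : Phi (fun _ => 0) (fun _ => 0) = ∑' i : ℕ, ENNReal.ofReal (1 / ((i : ℝ) + 1) ^ 2) := by
    simp [Phi, pot]
  rw [e, ← ENNReal.ofReal_tsum_of_nonneg (fun _ => by positivity) h]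
  exact ENNReal.ofReal_ne_top

theorem signs : ∃ K : ℝ, 0 ≤ K ∧ ∀ f : ℕ → ℕ → ℝ, ∃ s : ℕ → ℝ, (∀ j, s j = 1 ∨ s j = -1) ∧
    ∀ i J, ∑ j ∈ range J, f i j ^ 2 ≤ 1 →
      |∑ j ∈ range J, s j * f i j| ≤ K + 2 * log ((i : ℝ) + 1) := by
  set W := (Phi (fun _ => 0) (fun _ => 0)).toReal with hW
  have hW0 : 0 ≤ W := ENNReal.toReal_nonneg
  refine ⟨2 * W + 1, by positivity, fun f => ?_⟩
  choose σ hσ hΦ using Phi_step
  let V : ℕ → ℕ → ℝ := fun J i => ∑ j ∈ range J, f i j ^ 2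
  let A : ℕ → ℕ → ℝ := fun J => Nat.rec (fun _ => 0)
    (fun J B i => B i + σ B (V J) (fun i => f i J) * f i J) J
  have hA : ∀ J, A (J + 1) = fun i => A J i + σ (A J) (V J) (fun i => f i J) * f i J := fun _ => rfl
  have h1 : ∀ J i, A J i = ∑ j ∈ range J, σ (A j) (V j) (fun i => f i j) * f i j := by
    intro J i
    induction J with
    | zero => rfl
    | succ J ih => rw [sum_range_succ, ← ih, hA]
  have h2 : ∀ J, Phi (A J) (V J) ≤ Phi (fun _ => 0) (fun _ => 0) := by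
    intro J
    induction J with
    | zero => exact le_rfl
    | succ J ih =>
      have e : V (J + 1) = fun i => V J i + f i J ^ 2 := funext fun i => sum_range_succ _ _
      rw [hA, e]
      exact (hΦ _ _ _).trans ih
  refine ⟨fun j => σ (A j) (V j) (fun i => f i j), fun j => hσ _ _ _, fun i J hV => ?_⟩
  rw [← h1]
  have h3 : 1 / ((i : ℝ) + 1) ^ 2 * pot (A J i) (V J i) ≤ W :=
    (ENNReal.ofReal_le_iff_le_toReal Phi_zero).1 ((ENNReal.le_tsum i).trans (h2 J))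
  have hi : (0 : ℝ) < (i : ℝ) + 1 := by positivity
  rw [one_div, inv_mul_le_iff₀ (by positivity), pot] at h3
  have h4 : exp |A J i| ≤ 2 * cosh (A J i) := by
    rw [← cosh_abs, cosh_eq]
    linarith [exp_pos (-|A J i|)]
  have h5 : exp (-1) ≤ exp (-V J i / 2) := exp_le_exp.2 (by
    have : V J i ≤ 1 := hV
    linarith)
  have h6 : exp (|A J i| - 1) ≤ exp (2 * log ((i : ℝ) + 1) + 2 * W) := by
    have e : exp (2 * log ((i : ℝ) + 1)) = ((i : ℝ) + 1) ^ 2 := by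
      rw [two_mul, exp_add, exp_log hi, sq]
    rw [sub_eq_add_neg, exp_add, exp_add, e]
    have h7 := add_one_le_exp (2 * W)
    have h8 := mul_le_mul h4 h5 (exp_pos _).le (by linarith [cosh_pos (A J i)])
    have h9 := mul_le_mul_of_nonneg_left (show 2 * W ≤ exp (2 * W) by linarith)
      (sq_nonneg ((i : ℝ) + 1))
    nlinarith
  linarith [exp_le_exp.1 h6]

end Pool.Agent.FS.HalfPrimes
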